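import Pool.Agent.H66.ER2.Targets

/-!
# No odd prism in the meet
-/

set_option autoImplicit false

namespace Pool.Agent.H72.ER2

open Pool.Agent.H48.ER
open Pool.Agent.H52.ER2
open Pool.Agent.H66.ER2

variable {V : Type} {G : SimpleGraph V} {s t : V}

theorem mt_off {u w : V} (hus : u ≠ s) (hut : u ≠ t) (hws : w ≠ s) (hwt : w ≠ t) :
    (mt G s t).Adj u w ↔ G.Adj u w := by
  constructor
  · exact fun h => h.2.2.1
  · exact fun h => ⟨hut, hwt, h, fun e => absurd e hus, fun e => absurd e hws⟩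

theorem mt_s (hst : s ≠ t) {w : V} : (mt G s t).Adj s w ↔ (G.Adj s w ∧ G.Adj t w) := by
  constructor
  · exact fun h => ⟨h.2.2.1, h.2.2.2.1 rfl⟩
  · rintro ⟨h1, h2⟩
    exact ⟨hst, h2.ne.symm, h1, fun _ => h2, fun e => absurd e h1.ne.symm⟩

theorem IP_nbr {H : SimpleGraph V} {n : ℕ} {x y w : V} {R : Set V} (h : IP H n x y R)
    (hn : 1 ≤ n) (hw : w ∈ R) : ∃ w', H.Adj w w' := by
  obtain ⟨g, -, -, -, ga, hR⟩ := h
  rw [hR] at hw
  obtain ⟨i, hi, rfl⟩ := hw
  by_cases h0 : i = 0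
  · subst h0
    exact ⟨g 1, (ga 0 1 (Nat.zero_le _) hn).2 (Or.inl rfl)⟩
  · exact ⟨g (i - 1), (ga i (i - 1) hi (by omega)).2 (Or.inr (by omega))⟩

theorem t_notMem {a b : Fin 3 → V} {n : Fin 3 → ℕ} {P : Fin 3 → Set V}
    (h : Prism (mt G s t) a b n P) : t ∉ ver P := by
  rintro ⟨i, hi⟩
  obtain ⟨w, hw⟩ := IP_nbr (h.ip i) (h.pos i) hi
  exact hw.1 rfl

theorem corner (hMPC : T_MPC) (hG : Cls G) (hst : s ≠ t) (hn : ¬ G.Adj s t)
    {a b : Fin 3 → V} {n : Fin 3 → ℕ} {P : Fin 3 → Set V}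
    (h : Prism (mt G s t) a b n P) (ho : ∀ i, Odd (n i)) (hs : s = a 0) : False := by
  have ht := t_notMem h
  have hs0 : s ∈ P 0 := by rw [hs]; exact h.a_mem 0
  have hs1 : s ∉ P 1 := fun e => h.ne_of_mem (by decide) hs0 e rfl
  have hs2 : s ∉ P 2 := fun e => h.ne_of_mem (by decide) hs0 e rfl
  have hmt : ∀ u w, u ∈ ver P → w ∈ ver P → u ≠ s → w ≠ s →
      (G.Adj u w ↔ (mt G s t).Adj u w) := by
    intro u w hu hw hus hws
    have hut : u ≠ t := fun e => ht (e ▸ hu)
    have hwt : w ≠ t := fun e => ht (e ▸ hw)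
    exact (mt_off hus hut hws hwt).symm
  obtain ⟨k, hk⟩ : ∃ k, n 0 = k + 1 := ⟨n 0 - 1, by have := h.pos 0; omega⟩
  have hke : Even k := by
    have := ho 0
    rw [hk, Nat.odd_add_one, Nat.not_odd_iff_even] at this
    exact this
  have hip0 := h.ip 0
  rw [hk, ← hs] at hip0
  obtain ⟨y, hsy, hy0, hY, hyu⟩ := hip0.tail
  have hYne : ∀ u ∈ P 0 \ {s}, u ≠ s := fun u hu e => hu.2 e
  have hv : ∀ {i : Fin 3} {u : V}, u ∈ P i → u ∈ ver P := fun hu => mem_ver hu
  have h1ne : ∀ u ∈ P 1, u ≠ s := fun u hu e => hs1 (e ▸ hu)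
  have h2ne : ∀ u ∈ P 2, u ≠ s := fun u hu e => hs2 (e ▸ hu)
  have hYG : IP G k y (b 0) (P 0 \ {s}) :=
    hY.congr fun u hu w hw => hmt u w (hv hu.1) (hv hw.1) (hYne u hu) (hYne w hw)
  have hP1 : IP G (n 1) (a 1) (b 1) (P 1) :=
    (h.ip 1).congr fun u hu w hw => hmt u w (hv hu) (hv hw) (h1ne u hu) (h1ne w hw)
  have hP2 : IP G (n 2) (a 2) (b 2) (P 2) :=
    (h.ip 2).congr fun u hu w hw => hmt u w (hv hu) (hv hw) (h2ne u hu) (h2ne w hw)
  have hcyc : Cyc G (n 1) (n 2) (a 1) (b 1) (a 2) (b 2) (P 1) (P 2) :=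
    { ipP := hP1
      ipQ := hP2
      hn := ho 1
      hm := ho 2
      dis := h.dis 1 2 (by decide)
      adj := fun u hu w hw => by
        rw [hmt u w (hv hu) (hv hw) (h1ne u hu) (h2ne w hw)]
        exact h.adj 1 2 (by decide) u hu w hw }
  refine hMPC V G s t k (n 1) (n 2) y (b 0) (a 1) (b 1) (a 2) (b 2) (P 0 \ {s}) (P 1) (P 2)
    hG.noh hG.nop hG.nah hst hn hcyc hYG hke ?_ ?_ ?_ ?_ ?_
  · rw [Set.disjoint_left]
    rintro u hu (hw | hw)
    · exact h.ne_of_mem (by decide) hu.1 hw rfl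
    · exact h.ne_of_mem (by decide) hu.1 hw rfl
  · rintro u hu w (hw | hw)
    · rw [hmt u w (hv hu.1) (hv hw) (hYne u hu) (h1ne w hw), h.adj 0 1 (by decide) u hu.1 w hw]
      constructor
      · rintro (⟨e, -⟩ | ⟨e, e'⟩)
        · exact absurd (e.trans hs.symm) (hYne u hu)
        · exact ⟨e, Or.inl e'⟩
      · rintro ⟨e, e' | e'⟩
        · exact Or.inr ⟨e, e'⟩
        · exact absurd e' (h.ne_of_mem (by decide) hw (h.b_mem 2))
    · rw [hmt u w (hv hu.1) (hv hw) (hYne u hu) (h2ne w hw), h.adj 0 2 (by decide) u hu.1 w hw]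
      constructor
      · rintro (⟨e, -⟩ | ⟨e, e'⟩)
        · exact absurd (e.trans hs.symm) (hYne u hu)
        · exact ⟨e, Or.inr e'⟩
      · rintro ⟨e, e' | e'⟩
        · exact absurd e' (h.ne_of_mem (by decide) hw (h.b_mem 1))
        · exact Or.inr ⟨e, e'⟩
  · rintro (e | e | e)
    · exact e.2 rfl
    · exact hs1 e
    · exact hs2 e
  · rintro (e | e | e)
    · exact ht (hv e.1)
    · exact ht (hv e)
    · exact ht (hv e)
  · rintro w (hw | hw | hw)
    · rw [← mt_s hst]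
      constructor
      · intro e
        exact Or.inl (hyu w hw.1 e)
      · rintro (e | e | e)
        · rw [e]; exact hsy
        · exact absurd e (h.ne_of_mem (by decide) hw.1 (h.a_mem 1))
        · exact absurd e (h.ne_of_mem (by decide) hw.1 (h.a_mem 2))
    · rw [← mt_s hst, h.adj 0 1 (by decide) s hs0 w hw]
      constructor
      · rintro (⟨-, e⟩ | ⟨e, -⟩)
        · exact Or.inr (Or.inl e)
        · exact absurd (hs.symm.trans e) (h.a_ne_b 0 0)
      · rintro (e | e | e)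
        · exact absurd e (h.ne_of_mem (by decide) hw hy0)
        · exact Or.inl ⟨hs, e⟩
        · exact absurd e (h.ne_of_mem (by decide) hw (h.a_mem 2))
    · rw [← mt_s hst, h.adj 0 2 (by decide) s hs0 w hw]
      constructor
      · rintro (⟨-, e⟩ | ⟨e, -⟩)
        · exact Or.inr (Or.inr e)
        · exact absurd (hs.symm.trans e) (h.a_ne_b 0 0)
      · rintro (e | e | e)
        · exact absurd e (h.ne_of_mem (by decide) hw hy0)
        · exact absurd e (h.ne_of_mem (by decide) hw (h.a_mem 1))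
        · exact Or.inl ⟨hs, e⟩

theorem inner (hMPI : T_MPI) (hG : Cls G) (hst : s ≠ t) (hn : ¬ G.Adj s t)
    {a b : Fin 3 → V} {n : Fin 3 → ℕ} {P : Fin 3 → Set V}
    (h : Prism (mt G s t) a b n P) (ho : ∀ i, Odd (n i)) (hs0 : s ∈ P 0) (hsa : s ≠ a 0)
    (hsb : s ≠ b 0) : False := by
  have ht := t_notMem h
  have hs1 : s ∉ P 1 := fun e => h.ne_of_mem (by decide) hs0 e rfl
  have hs2 : s ∉ P 2 := fun e => h.ne_of_mem (by decide) hs0 e rfl
  have hmt : ∀ u w, u ∈ ver P → w ∈ ver P → u ≠ s → w ≠ s →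
      (G.Adj u w ↔ (mt G s t).Adj u w) := by
    intro u w hu hw hus hws
    have hut : u ≠ t := fun e => ht (e ▸ hu)
    have hwt : w ≠ t := fun e => ht (e ▸ hw)
    exact (mt_off hus hut hws hwt).symm
  have hv : ∀ {i : Fin 3} {u : V}, u ∈ P i → u ∈ ver P := fun hu => mem_ver hu
  have h1ne : ∀ u ∈ P 1, u ≠ s := fun u hu e => hs1 (e ▸ hu)
  have h2ne : ∀ u ∈ P 2, u ≠ s := fun u hu e => hs2 (e ▸ hu)
  obtain ⟨i, j, R1, R2, hi, hj, hij, hun, hin, hNE⟩ := (h.ip 0).split hs0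
  have hi1 : i ≠ 0 := by
    rintro rfl
    exact hsa hi.eq_of_zero.1.symm
  have hj1 : j ≠ 0 := by
    rintro rfl
    exact hsb hj.eq_of_zero.1
  obtain ⟨l, rfl⟩ : ∃ l, i = l + 1 := ⟨i - 1, by omega⟩
  obtain ⟨r, rfl⟩ : ∃ r, j = r + 1 := ⟨j - 1, by omega⟩
  obtain ⟨x, hsx, hx, hL, hxu⟩ := hi.rev.tail
  obtain ⟨y, hsy, hy, hR, hyu⟩ := hj.tail
  have hR1 : ∀ u ∈ R1, u ∈ P 0 := fun u hu => hun ▸ Or.inl hu
  have hR2 : ∀ u ∈ R2, u ∈ P 0 := fun u hu => hun ▸ Or.inr hu
  have hcap : ∀ u, u ∈ R1 → u ∈ R2 → u = s := by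
    intro u h1 h2
    have : u ∈ R1 ∩ R2 := ⟨h1, h2⟩
    rw [hin] at this
    exact this
  have hodd : Odd (l + r) := by
    have h0 := ho 0
    rw [← hij] at h0
    rw [Nat.odd_iff] at h0 ⊢
    omega
  have hspr : SPr G l r (n 1) (n 2) (a 0) x (b 0) y (a 1) (b 1) (a 2) (b 2) (R1 \ {s}) (R2 \ {s})
      (P 1) (P 2) :=
    { ipL := hL.rev.congr fun u hu w hw =>
        hmt u w (hv (hR1 u hu.1)) (hv (hR1 w hw.1)) hu.2 hw.2
      ipR := hR.rev.congr fun u hu w hw =>
        hmt u w (hv (hR2 u hu.1)) (hv (hR2 w hw.1)) hu.2 hw.2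
      ipP := (h.ip 1).congr fun u hu w hw => hmt u w (hv hu) (hv hw) (h1ne u hu) (h1ne w hw)
      ipQ := (h.ip 2).congr fun u hu w hw => hmt u w (hv hu) (hv hw) (h2ne u hu) (h2ne w hw)
      oLR := hodd
      oP := ho 1
      oQ := ho 2
      dLR := by
        rw [Set.disjoint_left]
        exact fun u hu hw => hu.2 (hcap u hu.1 hw.1)
      dLP := by
        rw [Set.disjoint_left]
        exact fun u hu hw => h.ne_of_mem (by decide) (hR1 u hu.1) hw rfl
      dLQ := by
        rw [Set.disjoint_left]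
        exact fun u hu hw => h.ne_of_mem (by decide) (hR1 u hu.1) hw rfl
      dRP := by
        rw [Set.disjoint_left]
        exact fun u hu hw => h.ne_of_mem (by decide) (hR2 u hu.1) hw rfl
      dRQ := by
        rw [Set.disjoint_left]
        exact fun u hu hw => h.ne_of_mem (by decide) (hR2 u hu.1) hw rfl
      dPQ := h.dis 1 2 (by decide)
      eLR := by
        intro u hu w hw e
        rw [hmt u w (hv (hR1 u hu.1)) (hv (hR2 w hw.1)) hu.2 hw.2] at e
        exact hNE u hu w hw e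
      eLP := by
        intro u hu w hw
        rw [hmt u w (hv (hR1 u hu.1)) (hv hw) hu.2 (h1ne w hw),
          h.adj 0 1 (by decide) u (hR1 u hu.1) w hw]
        constructor
        · rintro (e | ⟨e, -⟩)
          · exact e
          · exact absurd (hcap u hu.1 (e ▸ hj.right_mem)) hu.2
        · exact Or.inl
      eLQ := by
        intro u hu w hw
        rw [hmt u w (hv (hR1 u hu.1)) (hv hw) hu.2 (h2ne w hw),
          h.adj 0 2 (by decide) u (hR1 u hu.1) w hw]
        constructor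
        · rintro (e | ⟨e, -⟩)
          · exact e
          · exact absurd (hcap u hu.1 (e ▸ hj.right_mem)) hu.2
        · exact Or.inl
      eRP := by
        intro u hu w hw
        rw [hmt u w (hv (hR2 u hu.1)) (hv hw) hu.2 (h1ne w hw),
          h.adj 0 1 (by decide) u (hR2 u hu.1) w hw]
        constructor
        · rintro (⟨e, -⟩ | e)
          · exact absurd (hcap u (e ▸ hi.left_mem) hu.1) hu.2
          · exact e
        · exact Or.inr
      eRQ := by
        intro u hu w hw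
        rw [hmt u w (hv (hR2 u hu.1)) (hv hw) hu.2 (h2ne w hw),
          h.adj 0 2 (by decide) u (hR2 u hu.1) w hw]
        constructor
        · rintro (⟨e, -⟩ | e)
          · exact absurd (hcap u (e ▸ hi.left_mem) hu.1) hu.2
          · exact e
        · exact Or.inr
      ePQ := by
        intro u hu w hw
        rw [hmt u w (hv hu) (hv hw) (h1ne u hu) (h2ne w hw)]
        exact h.adj 1 2 (by decide) u hu w hw }
  refine hMPI V G s t l r (n 1) (n 2) (a 0) x (b 0) y (a 1) (b 1) (a 2) (b 2) (R1 \ {s})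
    (R2 \ {s}) (P 1) (P 2) hG.noh hG.nop hst hn hspr ?_ ?_ ?_
  · rintro (((e | e) | e) | e)
    · exact e.2 rfl
    · exact e.2 rfl
    · exact hs1 e
    · exact hs2 e
  · rintro (((e | e) | e) | e)
    · exact ht (hv (hR1 _ e.1))
    · exact ht (hv (hR2 _ e.1))
    · exact ht (hv e)
    · exact ht (hv e)
  · intro w hw
    rw [← mt_s hst]
    constructor
    · intro e
      rcases hw with ((hw | hw) | hw) | hw
      · exact Or.inl (hxu w hw.1 e)
      · exact Or.inr (hyu w hw.1 e)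
      · rw [h.adj 0 1 (by decide) s hs0 w hw] at e
        rcases e with ⟨e, -⟩ | ⟨e, -⟩
        · exact absurd e hsa
        · exact absurd e hsb
      · rw [h.adj 0 2 (by decide) s hs0 w hw] at e
        rcases e with ⟨e, -⟩ | ⟨e, -⟩
        · exact absurd e hsa
        · exact absurd e hsb
    · rintro (e | e)
      · rw [e]; exact hsx
      · rw [e]; exact hsy

theorem core (hMPC : T_MPC) (hMPI : T_MPI) (hG : Cls G) (hst : s ≠ t) (hn : ¬ G.Adj s t)
    {a b : Fin 3 → V} {n : Fin 3 → ℕ} {P : Fin 3 → Set V}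
    (h : Prism (mt G s t) a b n P) (ho : ∀ i, Odd (n i)) (hs0 : s ∈ P 0) : False := by
  by_cases ha : s = a 0
  · exact corner hMPC hG hst hn h ho ha
  by_cases hb : s = b 0
  · exact corner hMPC hG hst hn h.flip ho hb
  exact inner hMPI hG hst hn h ho hs0 ha hb

theorem pf_MNP (hMPC : T_MPC) (hMPI : T_MPI) : T_MNP := by
  intro V G s t hG hst hn a b n P h ho
  have ht := t_notMem h
  by_cases hs : s ∈ ver P
  · obtain ⟨i, hi⟩ := hs
    refine core hMPC hMPI hG hst hn (h.perm (Equiv.swap 0 i) (Equiv.injective _))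
      (fun j => ho _) ?_
    show s ∈ P (Equiv.swap 0 i 0)
    rw [Equiv.swap_apply_left]
    exact hi
  · refine hG.nop a b n P (h.congr fun u hu w hw => ?_) ho
    have hut : u ≠ t := fun e => ht (e ▸ hu)
    have hwt : w ≠ t := fun e => ht (e ▸ hw)
    have hus : u ≠ s := fun e => hs (e ▸ hu)
    have hws : w ≠ s := fun e => hs (e ▸ hw)
    exact (mt_off hus hut hws hwt).symm

end Pool.Agent.H72.ER2
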