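import Pool.Agent.H56.ER2.Targets

/-!
# The long way around a hole
-/

set_option autoImplicit false

namespace Pool.Agent.H72.ER2

open Pool.Agent.H48.ER
open Pool.Agent.H52.ER2
open Pool.Agent.H66.ER2
open Pool.Agent.H56.ER2

theorem PF_sub {V : Type} {G : SimpleGraph V} {n : ℕ} {g : ℕ → V} (h : PF G n g) {i j : ℕ}
    (hij : i ≤ j) (hj : j ≤ n) : IP G (j - i) (g i) (g j) (seg g i j) := by
  refine ⟨fun q => g (i + q), rfl, ?_, ?_, ?_, ?_⟩
  · show g (i + (j - i)) = g j
    congr 1
    omega
  · intro a b ha hb e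
    have := h.inj (i + a) (i + b) (by omega) (by omega) e
    omega
  · intro a b ha hb
    show G.Adj (g (i + a)) (g (i + b)) ↔ _
    rw [h.adj (i + a) (i + b) (by omega) (by omega)]
    omega
  · ext w
    constructor
    · rintro ⟨k, hk1, hk2, rfl⟩
      refine ⟨k - i, by omega, ?_⟩
      show g (i + (k - i)) = g k
      congr 1
      omega
    · rintro ⟨k, hk, rfl⟩
      exact ⟨i + k, by omega, by omega, rfl⟩

theorem pf_SGH : T_SGH := by
  intro V G v n z m g i k l s t T c e hS hF hQ hM hkm hic hce hek hvc hve hlo hhi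
  have hpf := hQ.pf
  have h1 : IP G (c - i) (g c) (g i) (seg g i c) := (PF_sub hpf hic (by omega)).rev
  have h3 : IP G (k - e) (g k) (g e) (seg g e k) := (PF_sub hpf hek hkm).rev
  have hTout : ∀ j, i ≤ j → j ≤ k → g j ∉ T := fun j h h' e' => hM.out j h h' (hM.sub e')
  have hd1 : Disjoint (seg g i c) T := by
    rw [Set.disjoint_left]
    rintro u ⟨j, hj1, hj2, rfl⟩ hu
    exact hTout j hj1 (by omega) hu
  have hx1 : XE G (seg g i c) T (g i) s := by
    rintro u ⟨j, hj1, hj2, rfl⟩ w hw
    by_cases hji : j = i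
    · subst hji
      rw [hM.ls w hw]
      exact ⟨fun h => ⟨rfl, h⟩, fun h => h.2⟩
    · constructor
      · intro h
        exact absurd h (hM.no j (by omega) (by omega) w (hM.sub hw))
      · rintro ⟨h, -⟩
        exact absurd (hpf.inj j i (by omega) (by omega) h) hji
  have h12 := h1.append hM.ip hd1 hx1
  have hd2 : Disjoint (seg g i c ∪ T) (seg g e k) := by
    rw [Set.disjoint_left]
    rintro u hu ⟨j, hj1, hj2, rfl⟩
    rcases hu with ⟨j', hj1', hj2', he'⟩ | hu
    · have := hpf.inj j' j (by omega) (by omega) he'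
      omega
    · exact hTout j (by omega) hj2 hu
  have hx2 : XE G (seg g i c ∪ T) (seg g e k) t (g k) := by
    rintro u hu w ⟨j, hj1, hj2, rfl⟩
    rcases hu with ⟨j', hj1', hj2', rfl⟩ | hu
    · constructor
      · intro h
        rw [hpf.adj j' j (by omega) (by omega)] at h
        omega
      · rintro ⟨h, -⟩
        exact absurd (h ▸ hM.ip.right_mem) (hTout j' hj1' (by omega))
    · by_cases hjk : j = k
      · subst hjk
        rw [SimpleGraph.adj_comm, hM.rt u hu]
        exact ⟨fun h => ⟨h, rfl⟩, fun h => h.1⟩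
      · constructor
        · intro h
          exact absurd h.symm (hM.no j (by omega) (by omega) u (hM.sub hu))
        · rintro ⟨-, h⟩
          exact absurd (hpf.inj j k (by omega) (by omega) h) hjk
  have h123 := h12.append h3 hd2 hx2
  have hev : Even (c - i + l + 1 + (k - e) + 1) := by
    refine hS.cls.noh _ (g c) (g e) v _ h123 (by omega) ?_ hvc hve ?_
    · rintro ((⟨j, hj1, hj2, he'⟩ | hu) | ⟨j, hj1, hj2, he'⟩)
      · exact hQ.nv j (by omega) he'
      · exact (hF.vw v (hM.sub hu)).1 rfl
      · exact hQ.nv j (by omega) he'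
    · rintro w ((⟨j, hj1, hj2, rfl⟩ | hu) | ⟨j, hj1, hj2, rfl⟩) hw
      · by_cases hjc : j = c
        · exact Or.inl (by rw [hjc])
        · exact absurd hw (hlo j hj1 (by omega))
      · exact absurd hw (hF.vw w (hM.sub hu)).2
      · by_cases hje : j = e
        · exact Or.inr (by rw [hje])
        · exact absurd hw (hhi j (by omega) hj2)
  have hev2 := hM.ev
  rw [Nat.even_iff] at hev hev2 ⊢
  omega

end Pool.Agent.H72.ER2
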